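import Pool.Agent.MP_1246c0_nt.H25.SpecR

/-! Failure for some small module is rare. -/

namespace Pool.Agent.MP_1246c0_nt.H25

open Finset Matrix
open Pool.Agent.MP_1246c0_nt.H12

namespace RLO

theorem ind_nonneg (p : Prop) : 0 ≤ ind p := by
  unfold ind; split_ifs <;> norm_num

theorem ind_true {p : Prop} (h : p) : ind p = 1 := if_pos h

theorem ind_le {p : Prop} {x : ℝ} (h0 : 0 ≤ x) (h1 : p → 1 ≤ x) : ind p ≤ x := by
  unfold ind; split_ifs with h
  exacts [h1 h, h0]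

theorem hom_ext {Λ R : Type} [CommRing Λ] [Ring R] {st : Λ →+* Λ} {au : Λ →+* F2} {g : Λ} {N : ℕ}
    [NeZero N] (h : LG st au g N) {φ ψ : Λ →+* R} (e : φ g = ψ g) : φ = ψ := by
  ext x
  obtain ⟨c, rfl⟩ := h.bij.2 x
  simp only [cv, map_sum, map_mul, map_natCast, map_pow, e]

/-- the finite set of labels -/
abbrev Lab (L A : ℕ) : Type := Σ l : Fin (L + 1), Mb l × Mb l × Mb l × Fin (A + 1)

end RLO

open RLO in
theorem rowRLO : OfRLO := by
  intro av kn gn ε L A hε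
  set δ : ℝ := ε / (2 * (Fintype.card (Lab L A) + 1)) with hδ
  have d0 : 0 < δ := by positivity
  obtain ⟨κ, hκ⟩ := pow_unbounded_of_one_lt ((2 : ℝ) ^ (3 * L * L + 3 * L) / δ) one_lt_two
  refine ⟨κ, fun j0 => ?_⟩
  choose t0 ht0 using fun l => gn δ l (2 ^ (κ + l)) A j0 d0
  refine ⟨max ((range (L + 1)).sup t0) (2 * A), ?_⟩
  intro Λ ι _ _ _ _ st au g n lv e c4 B J1 J2 i1 M c tp htp mx hJ h1 h2
  have key : ∀ t : Lab L A, Ex (Hs st B B) (fun H => ind (∃ φ : Λ →+* Mb t.1, φ g = t.2.1 ∧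
      Mo φ g t.2.2.1 t.2.2.2.1 t.2.2.2.2 ∧
      (2 ^ κ < nP φ g t.2.2.1 t.2.2.2.1 t.2.2.2.2 lv e i1 (M + H) c ∨
        BadF φ g t.2.2.1 t.2.2.2.1 t.2.2.2.2 lv e c4 i1 (M + H) c J1 J2 (2 ^ (κ + t.1))))) ≤
      2 * δ := by
    rintro ⟨l, G, s, u, a⟩
    by_cases hx : ∃ φ : Λ →+* Mb l, φ g = G ∧ Mo φ g s u a
    · obtain ⟨φ, e1, mo⟩ := hx
      have ha : (a : ℕ) ≤ A := Nat.lt_succ_iff.1 a.2
      have k1 := kn Λ ι st au g n lv e B i1 M c tp j0 l φ s u a mx mo (by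
        have := (le_max_right _ _).trans htp; omega)
      have k2 := ht0 l Λ ι st au g n lv e c4 B J1 J2 i1 M c tp φ s u a
        ((le_sup (f := t0) (mem_range.2 l.2)).trans ((le_max_left _ _).trans htp)) mx mo ha hJ h1 h2
      refine (av.mono _ _ _ (fun H => ((2 : ℝ) ^ κ)⁻¹ * nP φ g s u a lv e i1 (M + H) c +
        ind (BadF φ g s u a lv e c4 i1 (M + H) c J1 J2 (2 ^ (κ + l)))) fun H _ => ?_).trans ?_
      · have p0 : 0 ≤ ((2 : ℝ) ^ κ)⁻¹ * nP φ g s u a lv e i1 (M + H) c := by positivity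
        refine ind_le (add_nonneg p0 (ind_nonneg _)) ?_
        rintro ⟨ψ, e2, -, h⟩
        obtain rfl : ψ = φ := hom_ext mx.lg (e2.trans e1.symm)
        rcases h with h | h
        · refine le_add_of_le_of_nonneg ?_ (ind_nonneg _)
          rw [inv_mul_eq_div, le_div_iff₀ (by positivity), one_mul]
          exact_mod_cast h.le
        · rw [ind_true h]; linarith
      · rw [av.add, av.mul]
        have hl : (l : ℕ) ≤ L := Nat.lt_succ_iff.1 l.2
        have k3 : (2 : ℝ) ^ (3 * l * l + 3 * l : ℕ) ≤ 2 ^ (3 * L * L + 3 * L) :=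
          pow_le_pow_right₀ one_le_two (by nlinarith [Nat.mul_le_mul hl hl])
        rw [div_lt_iff₀ d0] at hκ
        have k4 : ((2 : ℝ) ^ κ)⁻¹ * Ex (Hs st B B)
            (fun H => (nP φ g s u a lv e i1 (M + H) c : ℝ)) ≤ δ := by
          rw [inv_mul_eq_div, div_le_iff₀ (by positivity)]
          linarith
        linarith
    · refine (av.mono _ _ _ (fun _ => 2 * δ) fun H _ => ind_le (by positivity) ?_).trans
        (av.const _ _ _).le
      rintro ⟨φ, e1, mo, -⟩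
      exact absurd ⟨φ, e1, mo⟩ hx
  refine (av.mono _ _ _ _ fun H _ => ?_).trans
    (((av.sum _ _ _ univ _).trans_le (sum_le_sum fun t _ => key t)).trans ?_)
  · refine ind_le (sum_nonneg fun _ _ => ind_nonneg _) ?_
    rintro ⟨l, hl, φ, s, u, a, ha, mo, h⟩
    refine le_trans (le_of_eq ?_) (single_le_sum (fun _ _ => ind_nonneg _) (mem_univ
      (⟨⟨l, Nat.lt_succ_of_le hl⟩, φ g, s, u, ⟨a, Nat.lt_succ_of_le ha⟩⟩ : Lab L A)))
    exact (ind_true ⟨φ, rfl, mo, h⟩).symm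
  · rw [sum_const, card_univ, nsmul_eq_mul, hδ, ← mul_assoc, ← mul_div_assoc,
      div_le_iff₀ (by positivity)]
    nlinarith

end Pool.Agent.MP_1246c0_nt.H25
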